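import Pool.Agent.H118.G.R_seed8.Helper770.VanKampen

set_option autoImplicit false

/-!
# The van Kampen obstruction for `K₃,₃`
-/

namespace Pool.Agent.H118.CE

open Pool.Agent.Helper770.VanKampen

/-- Three points cannot be joined to three other points inside nine sets such that the sets
belonging to vertex-disjoint pairs are disjoint. -/
theorem k33_joined (p q : Fin 3 → ℂ) (S : Fin 3 → Fin 3 → Set ℂ)
    (hS : ∀ i a, JoinedIn (S i a) (p i) (q a))
    (hdis : ∀ i j a b, i ≠ j → a ≠ b → Disjoint (S i a) (S j b)) : False := by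
  classical
  -- the six points
  let P : Fin 6 → ℂ := fun x => if h : x.1 < 3 then p ⟨x.1, h⟩ else q ⟨x.1 - 3, by omega⟩
  let lo : Fin 6 → Fin 3 := fun x => ⟨x.1 % 3, Nat.mod_lt _ (by norm_num)⟩
  let E : Fin 6 → Fin 6 → Prop := fun x y => x.1 < 3 ∧ 3 ≤ y.1
  let γ : Fin 6 → Fin 6 → ℝ → ℂ := fun x y => (hS (lo x) (lo y)).somePath.extend
  have hmem : ∀ x y t, γ x y t ∈ S (lo x) (lo y) := by
    intro x y t
    have : (hS (lo x) (lo y)).somePath.extend t ∈ Set.range (hS (lo x) (lo y)).somePath.extend :=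
      ⟨t, rfl⟩
    rw [Path.extend_range] at this
    obtain ⟨s, hs⟩ := this
    change (hS (lo x) (lo y)).somePath.extend t ∈ _
    rw [← hs]
    exact (hS (lo x) (lo y)).somePath_mem s
  have hPlo : ∀ x : Fin 6, x.1 < 3 → P x = p (lo x) := by
    intro x hx
    have h1 : P x = p ⟨x.1, hx⟩ := dif_pos hx
    rw [h1]
    congr 1
    exact Fin.ext (Nat.mod_eq_of_lt hx).symm
  have hPhi : ∀ x : Fin 6, 3 ≤ x.1 → P x = q (lo x) := by
    intro x hx
    have h1 : P x = q ⟨x.1 - 3, by omega⟩ := dif_neg (by omega)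
    rw [h1]
    congr 1
    apply Fin.ext
    change x.1 - 3 = x.1 % 3
    omega
  have hγ0 : ∀ x y, γ x y 0 = p (lo x) := fun x y => by
    change (hS (lo x) (lo y)).somePath.extend 0 = _
    simp
  have hγ1 : ∀ x y, γ x y 1 = q (lo y) := fun x y => by
    change (hS (lo x) (lo y)).somePath.extend 1 = _
    simp
  have hd : ∀ x y z w, E x y → E z w → x ≠ z → y ≠ w → ∀ s t, γ x y s ≠ γ z w t := by
    intro x y z w hxy hzw h1 h2 s t he
    have h1' : lo x ≠ lo z := by
      intro h
      apply h1
      have := congrArg Fin.val h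
      change x.1 % 3 = z.1 % 3 at this
      apply Fin.ext
      have a1 := hxy.1
      have a2 := hzw.1
      omega
    have h2' : lo y ≠ lo w := by
      intro h
      apply h2
      have := congrArg Fin.val h
      change y.1 % 3 = w.1 % 3 at this
      apply Fin.ext
      have a1 := hxy.2
      have a2 := hzw.2
      omega
    exact Set.disjoint_left.mp (hdis _ _ _ _ h1' h2') (hmem x y s) (he ▸ hmem z w t)
  -- the arcs avoid the other points
  have hv : ∀ x y c, x < y → E x y → c ≠ x → c ≠ y → ∀ t, γ x y t ≠ P c := by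
    intro x y c _ hE hcx hcy t he
    by_cases hc : c.1 < 3
    · obtain ⟨w, hw, hw'⟩ : ∃ w : Fin 6, 3 ≤ w.1 ∧ w ≠ y := by
        by_cases h : y.1 = 3
        · exact ⟨4, by decide, fun h' => by rw [← h'] at h; exact absurd h (by decide)⟩
        · exact ⟨3, by decide, fun h' => h (by rw [← h']; rfl)⟩
      have := hd x y c w hE ⟨hc, hw⟩ (Ne.symm hcx) (Ne.symm hw') t 0
      apply this
      rw [hγ0, he, hPlo c hc]
    · obtain ⟨w, hw, hw'⟩ : ∃ w : Fin 6, w.1 < 3 ∧ w ≠ x := by
        by_cases h : x.1 = 0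
        · exact ⟨1, by decide, fun h' => by rw [← h'] at h; exact absurd h (by decide)⟩
        · exact ⟨0, by decide, fun h' => h (by rw [← h']; rfl)⟩
      have := hd x y w c hE ⟨hw, by omega⟩ (Ne.symm hw') (Ne.symm hcy) t 1
      apply this
      rw [hγ1, he, hPhi c (by omega)]
  -- the points are distinct
  have hP : Function.Injective P := by
    intro x z hxz
    by_contra hne
    by_cases hx : x.1 < 3
    · obtain ⟨w, hw, hw'⟩ : ∃ w : Fin 6, 3 ≤ w.1 ∧ w ≠ z := by
        by_cases h : z.1 = 3
        · exact ⟨4, by decide, fun h' => by rw [← h'] at h; exact absurd h (by decide)⟩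
        · exact ⟨3, by decide, fun h' => h (by rw [← h']; rfl)⟩
      refine hv x w z ?_ ⟨hx, hw⟩ (Ne.symm hne) (Ne.symm hw') 0 ?_
      · exact Fin.lt_def.mpr (by omega)
      · rw [hγ0, ← hxz, hPlo x hx]
    · obtain ⟨w, hw, hw'⟩ : ∃ w : Fin 6, w.1 < 3 ∧ w ≠ z := by
        by_cases h : z.1 = 0
        · exact ⟨1, by decide, fun h' => by rw [← h'] at h; exact absurd h (by decide)⟩
        · exact ⟨0, by decide, fun h' => h (by rw [← h']; rfl)⟩
      refine hv w x z ?_ ⟨hw, by omega⟩ (Ne.symm hw') (Ne.symm hne) 1 ?_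
      · exact Fin.lt_def.mpr (by omega)
      · rw [hγ1, ← hxz, hPhi x (by omega)]
  obtain ⟨m, hm⟩ := exists_labels P hP E γ
    (fun a b _ _ => (hS (lo a) (lo b)).somePath.continuous_extend)
    (fun a b _ hE => by rw [hγ0, hPlo a hE.1]) (fun a b _ hE => by rw [hγ1, hPhi b hE.2]) hv
  have key : ∀ a b c d : Fin 6, a < b → c < d → E a b → E c d → a ≠ c → b ≠ d →
      beta a b c d = m a b c + m a b d + m c d a + m c d b := by
    intro a b c d hab hcd h1 h2 h3 h4
    refine hm a b c d hab hcd h1 h2 h3 ?_ ?_ h4 (hd a b c d h1 h2 h3 h4)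
    · intro h; rw [h] at h1; have := h1.1; have := h2.2; omega
    · intro h; rw [h] at h1; have := h1.2; have := h2.1; omega
  have two : (2 : ZMod 2) = 0 := rfl
  have e1 := key 0 3 1 4 (by decide) (by decide) (by decide) (by decide) (by decide) (by decide)
  rw [show beta ((0 : Fin 6)) 3 1 4 = 1 from by decide] at e1
  have e2 := key 0 3 1 5 (by decide) (by decide) (by decide) (by decide) (by decide) (by decide)
  rw [show beta ((0 : Fin 6)) 3 1 5 = 1 from by decide] at e2
  have e3 := key 0 4 1 5 (by decide) (by decide) (by decide) (by decide) (by decide) (by decide)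
  rw [show beta ((0 : Fin 6)) 4 1 5 = 1 from by decide] at e3
  have e4 := key 0 4 1 3 (by decide) (by decide) (by decide) (by decide) (by decide) (by decide)
  rw [show beta ((0 : Fin 6)) 4 1 3 = 0 from by decide] at e4
  have e5 := key 0 5 1 3 (by decide) (by decide) (by decide) (by decide) (by decide) (by decide)
  rw [show beta ((0 : Fin 6)) 5 1 3 = 0 from by decide] at e5
  have e6 := key 0 5 1 4 (by decide) (by decide) (by decide) (by decide) (by decide) (by decide)
  rw [show beta ((0 : Fin 6)) 5 1 4 = 0 from by decide] at e6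
  have f1 := key 0 3 2 4 (by decide) (by decide) (by decide) (by decide) (by decide) (by decide)
  rw [show beta ((0 : Fin 6)) 3 2 4 = 1 from by decide] at f1
  have f2 := key 0 3 2 5 (by decide) (by decide) (by decide) (by decide) (by decide) (by decide)
  rw [show beta ((0 : Fin 6)) 3 2 5 = 1 from by decide] at f2
  have f3 := key 0 4 2 5 (by decide) (by decide) (by decide) (by decide) (by decide) (by decide)
  rw [show beta ((0 : Fin 6)) 4 2 5 = 1 from by decide] at f3
  have f4 := key 0 4 2 3 (by decide) (by decide) (by decide) (by decide) (by decide) (by decide)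
  rw [show beta ((0 : Fin 6)) 4 2 3 = 0 from by decide] at f4
  have f5 := key 0 5 2 3 (by decide) (by decide) (by decide) (by decide) (by decide) (by decide)
  rw [show beta ((0 : Fin 6)) 5 2 3 = 0 from by decide] at f5
  have f6 := key 0 5 2 4 (by decide) (by decide) (by decide) (by decide) (by decide) (by decide)
  rw [show beta ((0 : Fin 6)) 5 2 4 = 0 from by decide] at f6
  have g1 := key 1 3 2 4 (by decide) (by decide) (by decide) (by decide) (by decide) (by decide)
  rw [show beta ((1 : Fin 6)) 3 2 4 = 1 from by decide] at g1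
  have g2 := key 1 3 2 5 (by decide) (by decide) (by decide) (by decide) (by decide) (by decide)
  rw [show beta ((1 : Fin 6)) 3 2 5 = 1 from by decide] at g2
  have g3 := key 1 4 2 5 (by decide) (by decide) (by decide) (by decide) (by decide) (by decide)
  rw [show beta ((1 : Fin 6)) 4 2 5 = 1 from by decide] at g3
  have g4 := key 1 4 2 3 (by decide) (by decide) (by decide) (by decide) (by decide) (by decide)
  rw [show beta ((1 : Fin 6)) 4 2 3 = 0 from by decide] at g4
  have g5 := key 1 5 2 3 (by decide) (by decide) (by decide) (by decide) (by decide) (by decide)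
  rw [show beta ((1 : Fin 6)) 5 2 3 = 0 from by decide] at g5
  have g6 := key 1 5 2 4 (by decide) (by decide) (by decide) (by decide) (by decide) (by decide)
  rw [show beta ((1 : Fin 6)) 5 2 4 = 0 from by decide] at g6
  have one : (1 : ZMod 2) = 0 := by
    linear_combination e1 + e2 + e3 + e4 + e5 + e6 + f1 + f2 + f3 + f4 + f5 + f6 + g1 + g2 + g3 +
      g4 + g5 + g6 + ((m 0 3 1 + m 0 3 4 + m 0 3 5 + m 0 3 2 + m 0 4 1 + m 0 4 2 + m 0 4 3 +
        m 0 4 5 + m 0 5 1 + m 0 5 2 + m 0 5 3 + m 0 5 4 + m 1 3 0 + m 1 3 2 + m 1 3 4 + m 1 3 5 +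
        m 1 4 0 + m 1 4 2 + m 1 4 3 + m 1 4 5 + m 1 5 0 + m 1 5 2 + m 1 5 3 + m 1 5 4 + m 2 3 0 +
        m 2 3 1 + m 2 3 4 + m 2 3 5 + m 2 4 0 + m 2 4 1 + m 2 4 3 + m 2 4 5 + m 2 5 0 + m 2 5 1 +
        m 2 5 3 + m 2 5 4) - 4) * two
  exact one_ne_zero one

end Pool.Agent.H118.CE
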