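import Pool.Agent.H118.G.R_seed8.Helper770.Straight

set_option autoImplicit false

/-!
# Straight-line drawings in which no vertex lies on the line of an edge

The lemmas of `Pool.Agent.Helper770.Straight`, under a hypothesis on the edges only.
-/

namespace Pool.Agent.H118.CE

open Pool.Agent.Helper770.Crossing Pool.Agent.Helper770.Exist
open Pool.Agent.Helper770.Straight (ori seg seg_zero seg_one seg_cont seg_inj ori_seg ori_self₁
  ori_self₂)

/-- distinct points, and no vertex lies on the line of an edge that it is not an end of -/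
structure EGen {V : Type*} (G : SimpleGraph V) (P : V → ℂ) : Prop where
  inj : Function.Injective P
  gen : ∀ a b c, G.Adj a b → c ≠ a → c ≠ b → ori (P a) (P b) (P c) ≠ 0

variable {V : Type*} {G : SimpleGraph V} {P : V → ℂ}

/-- The straight-line drawing. -/
noncomputable def straight (G : SimpleGraph V) (P : V → ℂ) (h : EGen G P) : Drawing G where
  pos := P
  pos_injective := h.inj
  arc e := seg (P e.out.1) (P e.out.2)
  arc_continuousOn e _ := (seg_cont _ _).continuousOn
  arc_injOn e he s _ t _ hst := by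
    refine seg_inj (fun hh => ?_) hst
    have hd : ¬ e.IsDiag := G.not_isDiag_of_mem_edgeSet he
    apply hd
    have he' : s(e.out.1, e.out.2) = e := e.out_eq
    rw [← he', Sym2.mk_isDiag_iff]
    exact h.inj hh
  arc_ends u v huv := by
    have he : s((s(u, v)).out.1, (s(u, v)).out.2) = s(u, v) := (s(u, v)).out_eq
    rcases Sym2.eq_iff.mp he with h | h
    · left; rw [h.1, h.2]; exact ⟨seg_zero _ _, seg_one _ _⟩
    · right; rw [h.1, h.2]; exact ⟨seg_zero _ _, seg_one _ _⟩
  arc_avoids e he t ht w hw := by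
    have hd : ¬ e.IsDiag := G.not_isDiag_of_mem_edgeSet he
    have he' : s(e.out.1, e.out.2) = e := e.out_eq
    have hne : e.out.1 ≠ e.out.2 := by
      intro hh
      apply hd
      rw [← he', Sym2.mk_isDiag_iff]
      exact hh
    have hne' : P e.out.1 ≠ P e.out.2 := fun hh => hne (h.inj hh)
    by_cases h1 : w = e.out.1
    · have h2 : seg (P e.out.1) (P e.out.2) t = seg (P e.out.1) (P e.out.2) 0 := by
        rw [hw, seg_zero, h1]
      exact ht.1.ne' (seg_inj hne' h2)
    by_cases h3 : w = e.out.2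
    · have h2 : seg (P e.out.1) (P e.out.2) t = seg (P e.out.1) (P e.out.2) 1 := by
        rw [hw, seg_one, h3]
      exact ht.2.ne (seg_inj hne' h2)
    · have h4 : seg (P e.out.1) (P e.out.2) t = seg (P w) (P w) 0 := by rw [hw, seg_zero]
      have h5 := ori_seg h4
      have hadj : G.Adj e.out.1 e.out.2 := by
        rw [← SimpleGraph.mem_edgeSet, he']
        exact he
      apply h.gen _ _ w hadj h1 h3
      linarith

lemma pt_unique (h : EGen G P) {e f : Sym2 V} (he : e ∈ G.edgeSet) (hf : f ∈ G.edgeSet)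
    (hef : e ≠ f) {z z' : ℂ}
    (h1 : z ∈ (straight G P h).arc e '' Set.Ioo (0 : ℝ) 1)
    (h2 : z ∈ (straight G P h).arc f '' Set.Ioo (0 : ℝ) 1)
    (h3 : z' ∈ (straight G P h).arc e '' Set.Ioo (0 : ℝ) 1)
    (h4 : z' ∈ (straight G P h).arc f '' Set.Ioo (0 : ℝ) 1) : z = z' := by
  obtain ⟨s, -, hs⟩ := h1
  obtain ⟨t, -, ht⟩ := h2
  obtain ⟨s', -, hs'⟩ := h3
  obtain ⟨t', -, ht'⟩ := h4
  change seg (P e.out.1) (P e.out.2) s = z at hs
  change seg (P f.out.1) (P f.out.2) t = z at ht
  change seg (P e.out.1) (P e.out.2) s' = z' at hs'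
  change seg (P f.out.1) (P f.out.2) t' = z' at ht'
  have a1 := ori_seg (ht.trans hs.symm)
  have a2 := ori_seg (ht'.trans hs'.symm)
  set A := ori (P f.out.1) (P f.out.2) (P e.out.1) with hA
  set B := ori (P f.out.1) (P f.out.2) (P e.out.2) with hB
  have hf' : s(f.out.1, f.out.2) = f := f.out_eq
  have he' : s(e.out.1, e.out.2) = e := e.out_eq
  have hfne : f.out.1 ≠ f.out.2 := by
    intro hh
    apply G.not_isDiag_of_mem_edgeSet hf
    rw [← hf', Sym2.mk_isDiag_iff]
    exact hh
  have hene : e.out.1 ≠ e.out.2 := by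
    intro hh
    apply G.not_isDiag_of_mem_edgeSet he
    rw [← he', Sym2.mk_isDiag_iff]
    exact hh
  have hfadj : G.Adj f.out.1 f.out.2 := by
    rw [← SimpleGraph.mem_edgeSet, hf']
    exact hf
  have hAB : A ≠ B := by
    intro hAB
    have hA0 : A = 0 := by rw [hAB] at a1; rw [hAB]; linarith
    have hB0 : B = 0 := by rw [← hAB]; exact hA0
    have c1 : e.out.1 = f.out.1 ∨ e.out.1 = f.out.2 := by
      by_contra hc
      push Not at hc
      exact h.gen _ _ _ hfadj hc.1 hc.2 hA0
    have c2 : e.out.2 = f.out.1 ∨ e.out.2 = f.out.2 := by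
      by_contra hc
      push Not at hc
      exact h.gen _ _ _ hfadj hc.1 hc.2 hB0
    apply hef
    rw [← he', ← hf', Sym2.eq_iff]
    rcases c1 with c1 | c1 <;> rcases c2 with c2 | c2
    · exact absurd (c1.trans c2.symm) hene
    · exact Or.inl ⟨c1, c2⟩
    · exact Or.inr ⟨c1, c2⟩
    · exact absurd (c1.trans c2.symm) hene
  have hs : s = s' := by
    have : (s - s') * (B - A) = 0 := by linarith
    rcases mul_eq_zero.mp this with hh | hh
    · linarith
    · exact absurd (by linarith) hAB
  subst hs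
  rw [← hs', ← ‹seg (P e.out.1) (P e.out.2) s = z›]

/-- what a crossing looks like -/
lemma crossing_form (h : EGen G P) {x : Sym2 (Sym2 V) × ℂ} (hx : x ∈ (straight G P h).crossings) :
    ∃ a b c d, G.Adj a b ∧ G.Adj c d ∧ a ≠ b ∧ a ≠ c ∧ a ≠ d ∧ b ≠ c ∧ b ≠ d ∧ c ≠ d ∧
      x.1 = s(s(a, b), s(c, d)) ∧
      ori (P a) (P b) (P c) * ori (P a) (P b) (P d) < 0 ∧
      ori (P c) (P d) (P a) * ori (P c) (P d) (P b) < 0 := by
  obtain ⟨e, he, f, hf, hef, hxe, ⟨s, ⟨hs0, hs1⟩, hs⟩, ⟨t, ⟨ht0, ht1⟩, ht⟩⟩ := hx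
  change seg (P e.out.1) (P e.out.2) s = x.2 at hs
  change seg (P f.out.1) (P f.out.2) t = x.2 at ht
  have he' : s(e.out.1, e.out.2) = e := e.out_eq
  have hf' : s(f.out.1, f.out.2) = f := f.out_eq
  set a := e.out.1
  set b := e.out.2
  set c := f.out.1
  set d := f.out.2
  have hab : G.Adj a b := by
    rw [← SimpleGraph.mem_edgeSet, he']; exact he
  have hcd : G.Adj c d := by
    rw [← SimpleGraph.mem_edgeSet, hf']; exact hf
  have o1 := ori_seg (hs.trans ht.symm)
  have o2 := ori_seg (ht.trans hs.symm)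
  have hne : s(a, b) ≠ s(c, d) := by rw [he', hf']; exact hef
  have hac : a ≠ c := by
    intro hh
    rw [← hh, ori_self₁, mul_zero, zero_add] at o1
    rcases mul_eq_zero.mp o1 with h1 | h1
    · exact ht0.ne' h1
    · refine h.gen a b d hab ?_ ?_ h1
      · rw [hh]; exact hcd.ne'
      · rintro h2; exact hne (by rw [hh, h2])
  have had : a ≠ d := by
    intro hh
    rw [← hh, ori_self₁, mul_zero, add_zero] at o1
    rcases mul_eq_zero.mp o1 with h1 | h1
    · linarith
    · refine h.gen a b c hab ?_ ?_ h1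
      · rw [hh]; exact hcd.ne
      · rintro h2; exact hne (by rw [hh, h2, Sym2.eq_swap])
  have hbc : b ≠ c := by
    intro hh
    rw [← hh, ori_self₂, mul_zero, zero_add] at o1
    rcases mul_eq_zero.mp o1 with h1 | h1
    · exact ht0.ne' h1
    · refine h.gen a b d hab had.symm ?_ h1
      rw [hh]; exact hcd.ne'
  have hbd : b ≠ d := by
    intro hh
    rw [← hh, ori_self₂, mul_zero, add_zero] at o1
    rcases mul_eq_zero.mp o1 with h1 | h1
    · linarith
    · refine h.gen a b c hab hac.symm ?_ h1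
      rw [hh]; exact hcd.ne
  refine ⟨a, b, c, d, hab, hcd, hab.ne, hac, had, hbc, hbd, hcd.ne, ?_, ?_, ?_⟩
  · rw [hxe, he', hf']
  · have n1 := h.gen a b c hab hac.symm hbc.symm
    have n2 := h.gen a b d hab had.symm hbd.symm
    have e1 : t * (ori (P a) (P b) (P c) * ori (P a) (P b) (P d)) =
        -((1 - t) * (ori (P a) (P b) (P c)) ^ 2) := by
      linear_combination (ori (P a) (P b) (P c)) * o1
    have p1 : 0 < (1 - t) * (ori (P a) (P b) (P c)) ^ 2 := by
      have : 0 < (ori (P a) (P b) (P c)) ^ 2 := by positivity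
      have h1t : 0 < 1 - t := by linarith
      positivity
    by_contra hc
    push Not at hc
    have := mul_nonneg ht0.le hc
    linarith
  · have n1 := h.gen c d a hcd hac had
    have e1 : s * (ori (P c) (P d) (P a) * ori (P c) (P d) (P b)) =
        -((1 - s) * (ori (P c) (P d) (P a)) ^ 2) := by
      linear_combination (ori (P c) (P d) (P a)) * o2
    have p1 : 0 < (1 - s) * (ori (P c) (P d) (P a)) ^ 2 := by
      have : 0 < (ori (P c) (P d) (P a)) ^ 2 := by positivity
      have h1t : 0 < 1 - s := by linarith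
      positivity
    by_contra hc
    push Not at hc
    have := mul_nonneg hs0.le hc
    linarith

/-- Bounding the number of crossings of a straight-line drawing. -/
theorem ncard_le (h : EGen G P) (S : Finset (Sym2 (Sym2 V)))
    (H : ∀ a b c d, G.Adj a b → G.Adj c d → a ≠ b → a ≠ c → a ≠ d → b ≠ c → b ≠ d → c ≠ d →
      ori (P a) (P b) (P c) * ori (P a) (P b) (P d) < 0 →
      ori (P c) (P d) (P a) * ori (P c) (P d) (P b) < 0 → s(s(a, b), s(c, d)) ∈ S) :
    (straight G P h).crossings.Finite ∧ (straight G P h).crossings.ncard ≤ S.card := by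
  have hsub : Prod.fst '' (straight G P h).crossings ⊆ (S : Set (Sym2 (Sym2 V))) := by
    rintro _ ⟨x, hx, rfl⟩
    obtain ⟨a, b, c, d, h1, h2, h3, h4, h5, h6, h7, h8, h9, h10, h11⟩ := crossing_form h hx
    rw [h9]
    exact H a b c d h1 h2 h3 h4 h5 h6 h7 h8 h10 h11
  have hinj : Set.InjOn Prod.fst (straight G P h).crossings := by
    rintro ⟨x, z⟩ hx ⟨y, z'⟩ hy hxy
    change x = y at hxy
    subst hxy
    obtain ⟨e, he, f, hf, hef, hxe, h1, h2⟩ := hx
    obtain ⟨e', he', f', hf', hef', hxe', h1', h2'⟩ := hy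
    simp only at hxe hxe' h1 h2 h1' h2'
    have hz : z = z' := by
      rcases Sym2.eq_iff.mp (hxe.symm.trans hxe') with ⟨r1, r2⟩ | ⟨r1, r2⟩
      · subst r1; subst r2
        exact pt_unique h he hf hef h1 h2 h1' h2'
      · subst r1; subst r2
        exact pt_unique h he hf hef h1 h2 h2' h1'
    rw [hz]
  have hfin : (straight G P h).crossings.Finite :=
    Set.Finite.of_finite_image ((Finset.finite_toSet S).subset hsub) hinj
  refine ⟨hfin, ?_⟩
  rw [← Set.ncard_image_of_injOn hinj, ← Set.ncard_coe_finset]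
  exact Set.ncard_le_ncard hsub (Finset.finite_toSet S)


end Pool.Agent.H118.CE
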