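import Pool.Agent.H118.CE.K33
import Pool.Agent.H118.CE.Weak

set_option autoImplicit false

/-!
# Lower bound: adding the edge `uv`
-/

namespace Pool.Agent.H118.CE

open Pool.Agent.Helper770.Crossing Pool.Agent.Helper770.Exist

/-- four hubs, `n` stars and two further vertices `u = false`, `v = true` -/
abbrev VV (n : ℕ) := Fin 4 ⊕ Fin n ⊕ Bool

/-- hubs `0` and `3` are the neighbours of `v = true`, hubs `1` and `2` those of `u = false` -/
def side (a : Fin 4) : Bool := a = 0 ∨ a = 3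

/-- the edges, written from the hub -/
def RR (n : ℕ) : VV n → VV n → Prop
  | Sum.inl _, Sum.inr (Sum.inl _) => True
  | Sum.inl a, Sum.inr (Sum.inr b) => side a = b
  | _, _ => False

/-- every hub is joined to every star, `u` to hubs `1, 2` and `v` to hubs `0, 3` -/
def GG (n : ℕ) : SimpleGraph (VV n) where
  Adj x y := RR n x y ∨ RR n y x
  symm := ⟨fun _ _ h => h.symm⟩
  loopless := ⟨by
    rintro (a | i | b) (h | h) <;> exact h⟩

/-- the vertex `u` -/
abbrev uu (n : ℕ) : VV n := Sum.inr (Sum.inr false)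
/-- the vertex `v` -/
abbrev vv (n : ℕ) : VV n := Sum.inr (Sum.inr true)

/-- the graph with the edge `uv` added -/
abbrev GG' (n : ℕ) : SimpleGraph (VV n) := GG n ⊔ SimpleGraph.edge (uu n) (vv n)

variable {n : ℕ}

lemma adj_star (a : Fin 4) (i : Fin n) : (GG' n).Adj (Sum.inl a) (Sum.inr (Sum.inl i)) :=
  Or.inl (Or.inl trivial)

lemma adj_extra {a : Fin 4} {b : Bool} (h : side a = b) :
    (GG' n).Adj (Sum.inl a) (Sum.inr (Sum.inr b)) :=
  Or.inl (Or.inl h)

lemma adj_uv : (GG' n).Adj (uu n) (vv n) := by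
  right
  rw [SimpleGraph.edge_adj]
  exact ⟨Or.inl ⟨rfl, rfl⟩, by simp⟩

/-! ### Arcs -/

/-- the closed image of an edge -/
def AA {V : Type*} {G : SimpleGraph V} (D : Drawing G) (e : Sym2 V) : Set ℂ :=
  D.arc e '' Set.Icc (0 : ℝ) 1

lemma joined {V : Type*} {G : SimpleGraph V} (D : Drawing G) {x y : V} (h : G.Adj x y) :
    JoinedIn (AA D s(x, y)) (D.pos x) (D.pos y) := by
  rcases D.arc_ends x y h with ⟨h0, h1⟩ | ⟨h0, h1⟩
  · exact JoinedIn.ofLine (D.arc_continuousOn _ h) h0 h1 subset_rfl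
  · exact (JoinedIn.ofLine (D.arc_continuousOn _ h) h0 h1 subset_rfl).symm

lemma end_mem {V : Type*} {G : SimpleGraph V} (D : Drawing G) {e : Sym2 V} (he : e ∈ G.edgeSet)
    {t : ℝ} (ht : t ∈ Set.Icc (0 : ℝ) 1) : t ∈ Set.Ioo (0 : ℝ) 1 ∨ ∃ x ∈ e, D.arc e t = D.pos x := by
  induction e using Sym2.ind with
  | _ x y =>
    rcases eq_or_lt_of_le ht.1 with h | h
    · right
      subst h
      rcases D.arc_ends x y he with ⟨h0, h1⟩ | ⟨h0, h1⟩
      · exact ⟨x, Sym2.mem_mk_left _ _, h0⟩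
      · exact ⟨y, Sym2.mem_mk_right _ _, h0⟩
    rcases eq_or_lt_of_le ht.2 with h' | h'
    · right
      subst h'
      rcases D.arc_ends x y he with ⟨h0, h1⟩ | ⟨h0, h1⟩
      · exact ⟨y, Sym2.mem_mk_right _ _, h1⟩
      · exact ⟨x, Sym2.mem_mk_left _ _, h1⟩
    · exact Or.inl ⟨h, h'⟩

lemma meet {V : Type*} {G : SimpleGraph V} (D : Drawing G) {e f : Sym2 V} (he : e ∈ G.edgeSet)
    (hf : f ∈ G.edgeSet) (hd : ∀ x ∈ e, x ∉ f) {z : ℂ} (h1 : z ∈ AA D e) (h2 : z ∈ AA D f) :
    (s(e, f), z) ∈ D.crossings := by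
  obtain ⟨s, hs, rfl⟩ := h1
  obtain ⟨t, ht, hst⟩ := h2
  have hef : e ≠ f := by
    rintro rfl
    induction e using Sym2.ind with
    | _ x y => exact hd x (Sym2.mem_mk_left _ _) (Sym2.mem_mk_left _ _)
  rcases end_mem D he hs with hs' | ⟨x, hx, hxe⟩
  · rcases end_mem D hf ht with ht' | ⟨y, hy, hye⟩
    · exact ⟨e, he, f, hf, hef, rfl, ⟨s, hs', rfl⟩, ⟨t, ht', hst⟩⟩
    · exact absurd (hst.symm.trans hye) (D.arc_avoids e he s hs' y)
  · rcases end_mem D hf ht with ht' | ⟨y, hy, hye⟩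
    · exact absurd (hst.trans hxe) (D.arc_avoids f hf t ht' x)
    · have : x = y := D.pos_injective (hxe.symm.trans (hst.symm.trans hye))
      subst this
      exact absurd hy (hd x hx)

/-! ### The generalised stars -/

/-- the centre of a star: for `⊥` it is `u` or `v` depending on the omitted hub `k` -/
def pt (k : Fin 4) : WithBot (Fin n) → VV n
  | none => Sum.inr (Sum.inr (!side k))
  | some i => Sum.inr (Sum.inl i)

/-- the edges of the path from the centre of a star to hub `a` -/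
def PE (k : Fin 4) (a : Fin 4) : WithBot (Fin n) → Set (Sym2 (VV n))
  | none => {e | e = s(Sum.inl a, Sum.inr (Sum.inr (side a))) ∨
      (side a = side k ∧ e = s(uu n, vv n))}
  | some i => {s(Sum.inl a, Sum.inr (Sum.inl i))}

/-- the set of points of the path -/
def SS (D : Drawing (GG' n)) (s : WithBot (Fin n)) (k a : Fin 4) : Set ℂ :=
  ⋃ e ∈ PE k a s, AA D e

lemma joined_SS (D : Drawing (GG' n)) (s : WithBot (Fin n)) (k a : Fin 4) :
    JoinedIn (SS D s k a) (D.pos (pt k s)) (D.pos (Sum.inl a)) := by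
  cases s with
  | coe i =>
    have h := (joined D (adj_star a i)).symm
    refine h.mono ?_
    intro z hz
    exact Set.mem_biUnion (show s(Sum.inl a, Sum.inr (Sum.inl i)) ∈ PE k a (some i) from rfl) hz
  | bot =>
    have h1 : JoinedIn (SS D ⊥ k a) (D.pos (Sum.inr (Sum.inr (side a)))) (D.pos (Sum.inl a)) := by
      refine (joined D (adj_extra (n := n) (rfl : side a = side a))).symm.mono ?_
      intro z hz
      exact Set.mem_biUnion (show s(Sum.inl a, Sum.inr (Sum.inr (side a))) ∈ PE k a (none : WithBot (Fin n))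
        from Or.inl rfl) hz
    by_cases h : side a = side k
    · have h2 : JoinedIn (SS D ⊥ k a) (D.pos (uu n)) (D.pos (vv n)) := by
        refine (joined D adj_uv).mono ?_
        intro z hz
        exact Set.mem_biUnion (show s(uu n, vv n) ∈ PE k a (none : WithBot (Fin n)) from Or.inr ⟨h, rfl⟩) hz
      change JoinedIn (SS D ⊥ k a) (D.pos (Sum.inr (Sum.inr (!side k)))) _
      rw [← h]
      cases hs : side a
      · rw [hs] at h1
        exact h2.symm.trans h1
      · rw [hs] at h1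
        exact h2.trans h1
    · have : (!side k) = side a := by
        cases h1 : side a <;> cases h2 : side k <;> simp_all
      change JoinedIn (SS D ⊥ k a) (D.pos (Sum.inr (Sum.inr (!side k)))) _
      rw [this]
      exact h1

lemma PE_mem (k a : Fin 4) (s : WithBot (Fin n)) {e : Sym2 (VV n)} (he : e ∈ PE k a s) :
    e ∈ (GG' n).edgeSet := by
  cases s with
  | coe i =>
    have : e = s(Sum.inl a, Sum.inr (Sum.inl i)) := he
    rw [this]
    exact adj_star a i
  | bot =>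
    rcases he with rfl | ⟨-, rfl⟩
    · exact adj_extra rfl
    · exact adj_uv

lemma PE_disj {k a b : Fin 4} (hab : a ≠ b) {s s' : WithBot (Fin n)} (hs : s ≠ s')
    {e f : Sym2 (VV n)} (he : e ∈ PE k a s) (hf : f ∈ PE k b s') : ∀ x ∈ e, x ∉ f := by
  cases s with
  | coe i =>
    have h1 : e = s(Sum.inl a, Sum.inr (Sum.inl i)) := he
    subst h1
    cases s' with
    | coe j =>
      have h2 : f = s(Sum.inl b, Sum.inr (Sum.inl j)) := hf
      subst h2
      have hij : i ≠ j := fun h => hs (by rw [h])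
      simp [hab, hij]
    | bot =>
      rcases hf with rfl | ⟨-, rfl⟩
      · simp [hab]
      · simp
  | bot =>
    cases s' with
    | coe j =>
      have h2 : f = s(Sum.inl b, Sum.inr (Sum.inl j)) := hf
      subst h2
      rcases he with rfl | ⟨-, rfl⟩
      · simp [hab]
      · simp
    | bot => exact absurd rfl hs

/-- the star of a vertex -/
def ow : VV n → WithBot (Fin n)
  | Sum.inl _ => ⊥
  | Sum.inr (Sum.inl i) => ↑i
  | Sum.inr (Sum.inr _) => ⊥

/-- the hub of a vertex -/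
def hu : VV n → WithBot (Fin 4)
  | Sum.inl a => ↑a
  | _ => ⊥

/-- the star of an edge -/
def owE : Sym2 (VV n) → WithBot (Fin n) :=
  Sym2.lift ⟨fun x y => ow x ⊔ ow y, fun x y => sup_comm _ _⟩

/-- the hub of an edge -/
def huE : Sym2 (VV n) → WithBot (Fin 4) :=
  Sym2.lift ⟨fun x y => hu x ⊔ hu y, fun x y => sup_comm _ _⟩

lemma owE_PE {k a : Fin 4} {s : WithBot (Fin n)} {e : Sym2 (VV n)} (he : e ∈ PE k a s) :
    owE e = s := by
  cases s with
  | coe i =>
    have h1 : e = s(Sum.inl a, Sum.inr (Sum.inl i)) := he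
    subst h1
    simp [owE, ow]
  | bot =>
    rcases he with rfl | ⟨-, rfl⟩ <;> simp [owE, ow]

lemma huE_PE {k a : Fin 4} {s : WithBot (Fin n)} {e : Sym2 (VV n)} (he : e ∈ PE k a s) :
    huE e = ↑a ∨ (huE e = ⊥ ∧ side a = side k ∧ s = ⊥) := by
  cases s with
  | coe i =>
    have h1 : e = s(Sum.inl a, Sum.inr (Sum.inl i)) := he
    subst h1
    left
    simp [huE, hu]
  | bot =>
    rcases he with rfl | ⟨h, rfl⟩
    · left
      simp [huE, hu]
    · right
      simp [huE, hu, h]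

/-- which omitted hubs are compatible with a pair of edges with the given hubs -/
def QQ (h1 h2 : WithBot (Fin 4)) (k : Fin 4) : Prop :=
  ∃ a b : Fin 4, a ≠ b ∧ a ≠ k ∧ b ≠ k ∧ (h1 = ↑a ∨ (h1 = ⊥ ∧ side a = side k)) ∧
    (h2 = ↑b ∨ (h2 = ⊥ ∧ side b = side k)) ∧ ¬ (h1 = ⊥ ∧ h2 = ⊥)

instance (h1 h2 : WithBot (Fin 4)) (k : Fin 4) : Decidable (QQ h1 h2 k) := by
  unfold QQ; infer_instance

lemma QQ_symm {h1 h2 : WithBot (Fin 4)} {k : Fin 4} (h : QQ h1 h2 k) : QQ h2 h1 k := by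
  obtain ⟨a, b, q1, q2, q3, q4, q5, q6⟩ := h
  exact ⟨b, a, q1.symm, q3, q2, q5, q4, fun h => q6 h.symm⟩

lemma card_QQ : ∀ h1 h2 : WithBot (Fin 4), (Finset.univ.filter (QQ h1 h2)).card ≤ 2 := by
  intro h1 h2
  induction h1 using WithBot.recBotCoe with
  | bot => 
    induction h2 using WithBot.recBotCoe with
    | bot => decide
    | coe b => revert b; decide
  | coe a =>
    induction h2 using WithBot.recBotCoe with
    | bot => revert a; decide
    | coe b => revert a b; decide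

/-- two stars are related when, omitting hub `k`, some two of their disjoint paths meet -/
def NZ (D : Drawing (GG' n)) (k : Fin 4) : SimpleGraph (WithBot (Fin n)) where
  Adj s s' := s ≠ s' ∧ ∃ a b : Fin 4, a ≠ b ∧ a ≠ k ∧ b ≠ k ∧
    (SS D s k a ∩ SS D s' k b).Nonempty
  symm := ⟨by
    rintro s s' ⟨h, a, b, h1, h2, h3, z, hz⟩
    exact ⟨h.symm, b, a, h1.symm, h3, h2, z, hz.2, hz.1⟩⟩
  loopless := ⟨fun s h => h.1 rfl⟩

/-- the complement is triangle free -/
lemma compl_free (D : Drawing (GG' n)) (k : Fin 4) : (NZ D k)ᶜ.CliqueFree 3 := by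
  by_contra hc
  let f := SimpleGraph.topEmbeddingOfNotCliqueFree hc
  have hf : ∀ i j : Fin 3, i ≠ j → f i ≠ f j ∧ ¬ (NZ D k).Adj (f i) (f j) := by
    intro i j hij
    have h1 : (NZ D k)ᶜ.Adj (f i) (f j) := f.map_adj_iff.mpr hij
    exact (SimpleGraph.compl_adj _ _ _).mp h1
  refine k33_joined (fun i => D.pos (pt k (f i))) (fun α => D.pos (Sum.inl (k.succAbove α)))
    (fun i α => SS D (f i) k (k.succAbove α)) (fun i α => joined_SS D _ _ _) ?_
  intro i j α β hij hαβ
  obtain ⟨h1, h2⟩ := hf i j hij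
  rw [Set.disjoint_iff_inter_eq_empty, ← Set.not_nonempty_iff_eq_empty]
  intro h3
  exact h2 ⟨h1, _, _, fun h => hαβ (Fin.succAbove_right_injective h), Fin.succAbove_ne k α,
    Fin.succAbove_ne k β, h3⟩

/-- the crossings counted with omitted hub `k` -/
def XX (D : Drawing (GG' n)) (k : Fin 4) : Set (Sym2 (Sym2 (VV n)) × ℂ) :=
  {x | x ∈ D.crossings ∧ ∃ (s s' : WithBot (Fin n)) (a b : Fin 4) (e f : Sym2 (VV n)),
    s ≠ s' ∧ a ≠ b ∧ a ≠ k ∧ b ≠ k ∧ e ∈ PE k a s ∧ f ∈ PE k b s' ∧ x.1 = s(e, f)}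

lemma edges_sub (D : Drawing (GG' n)) (k : Fin 4) :
    (NZ D k).edgeSet ⊆ (fun x : Sym2 (Sym2 (VV n)) × ℂ => Sym2.map owE x.1) '' XX D k := by
  intro p
  induction p using Sym2.ind with
  | _ s s' =>
    rintro ⟨h, a, b, h1, h2, h3, z, hz, hz'⟩
    simp only [SS, Set.mem_iUnion] at hz hz'
    obtain ⟨e, he, hze⟩ := hz
    obtain ⟨f, hf, hzf⟩ := hz'
    refine ⟨(s(e, f), z), ⟨meet D (PE_mem k a s he) (PE_mem k b s' hf) (PE_disj h1 h he hf) hze hzf,
      s, s', a, b, e, f, h, h1, h2, h3, he, hf, rfl⟩, ?_⟩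
    simp [owE_PE he, owE_PE hf]

lemma XX_QQ (D : Drawing (GG' n)) {k : Fin 4} {x : Sym2 (Sym2 (VV n)) × ℂ} (hx : x ∈ XX D k)
    {e f : Sym2 (VV n)} (hef : x.1 = s(e, f)) : QQ (huE e) (huE f) k := by
  obtain ⟨-, s, s', a, b, e', f', h, h1, h2, h3, he, hf, hx1⟩ := hx
  have key : QQ (huE e') (huE f') k := by
    refine ⟨a, b, h1, h2, h3, ?_, ?_, ?_⟩
    · rcases huE_PE he with q | ⟨q1, q2, -⟩
      · exact Or.inl q
      · exact Or.inr ⟨q1, q2⟩
    · rcases huE_PE hf with q | ⟨q1, q2, -⟩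
      · exact Or.inl q
      · exact Or.inr ⟨q1, q2⟩
    · rintro ⟨q1, q2⟩
      rcases huE_PE he with q | ⟨-, -, q⟩
      · rw [q1] at q; exact absurd q (WithBot.bot_ne_coe)
      rcases huE_PE hf with q' | ⟨-, -, q'⟩
      · rw [q2] at q'; exact absurd q' (WithBot.bot_ne_coe)
      exact h (q.trans q'.symm)
  rcases Sym2.eq_iff.mp (hef.symm.trans hx1) with ⟨r1, r2⟩ | ⟨r1, r2⟩
  · rw [r1, r2]; exact key
  · rw [r1, r2]; exact QQ_symm key

theorem nz_card (D : Drawing (GG' n)) (k : Fin 4) (r : ℕ) (hn : n = 2 * r)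
    [DecidableRel (NZ D k).Adj] : r ^ 2 ≤ (NZ D k).edgeFinset.card := by
  classical
  have h1 := SimpleGraph.CliqueFree.card_edgeFinset_le (G := (NZ D k)ᶜ) (r := 2) (compl_free D k)
  have hc : Fintype.card (WithBot (Fin n)) = 2 * r + 1 := by
    have : Fintype.card (WithBot (Fin n)) = Fintype.card (Option (Fin n)) := rfl
    rw [this, Fintype.card_option, Fintype.card_fin, hn]
  simp only [hc] at h1
  have h2 : (2 * r + 1) % 2 = 1 := by omega
  rw [h2] at h1
  have h3 : ((2 * r + 1) ^ 2 - 1 ^ 2) * (2 - 1) / (2 * 2) + Nat.choose 1 2 = r ^ 2 + r := by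
    have : ((2 * r + 1) ^ 2 - 1 ^ 2) * (2 - 1) = 4 * (r ^ 2 + r) := by
      have e1 : (2 * r + 1) ^ 2 = 4 * (r ^ 2 + r) + 1 := by ring
      rw [e1]; omega
    rw [this]
    have : 4 * (r ^ 2 + r) / (2 * 2) = r ^ 2 + r := by omega
    rw [this]
    simp
  rw [h3] at h1
  have h4 : (⊤ : SimpleGraph (WithBot (Fin n))).edgeFinset ⊆
      (NZ D k).edgeFinset ∪ ((NZ D k)ᶜ).edgeFinset := by
    intro p hp
    rw [Finset.mem_union, SimpleGraph.mem_edgeFinset, SimpleGraph.mem_edgeFinset]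
    rw [SimpleGraph.mem_edgeFinset] at hp
    induction p using Sym2.ind with
    | _ s s' =>
      by_cases h : (NZ D k).Adj s s'
      · exact Or.inl h
      · exact Or.inr ((SimpleGraph.compl_adj _ _ _).mpr ⟨hp, h⟩)
  have h5 := (Finset.card_le_card h4).trans (Finset.card_union_le _ _)
  rw [SimpleGraph.card_edgeFinset_top_eq_card_choose_two, hc] at h5
  have h6 : (2 * r + 1).choose 2 = 2 * r ^ 2 + r := by
    rw [Nat.choose_two_right]
    have : (2 * r + 1) * (2 * r + 1 - 1) = 2 * (2 * r ^ 2 + r) := by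
      rw [Nat.add_sub_cancel]; ring
    rw [this]; omega
  rw [h6] at h5
  omega

/-- **Lower bound.** -/
theorem lower (r : ℕ) : 2 * r ^ 2 ≤ crossingNumber (GG' (2 * r)) := by
  classical
  obtain ⟨D, hfin, hcard⟩ := crossingNumber_attained (GG' (2 * r))
  rw [← hcard]
  set C := hfin.toFinset with hC
  have hCc : D.crossings.ncard = C.card := Set.ncard_eq_toFinset_card _ hfin
  rw [hCc]
  -- each `k`
  have h1 : ∀ k : Fin 4, r ^ 2 ≤ (C.filter (fun x => x ∈ XX D k)).card := by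
    intro k
    refine (nz_card D k r rfl).trans ?_
    have hs : (NZ D k).edgeFinset ⊆
        (C.filter (fun x => x ∈ XX D k)).image (fun x => Sym2.map owE x.1) := by
      intro p hp
      rw [SimpleGraph.mem_edgeFinset] at hp
      obtain ⟨x, hx, rfl⟩ := edges_sub D k hp
      refine Finset.mem_image_of_mem _ ?_
      rw [Finset.mem_filter, hC, Set.Finite.mem_toFinset]
      exact ⟨hx.1, hx⟩
    exact (Finset.card_le_card hs).trans Finset.card_image_le
  have h2 : ∑ k : Fin 4, (C.filter (fun x => x ∈ XX D k)).card =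
      ∑ x ∈ C, (Finset.univ.filter (fun k : Fin 4 => x ∈ XX D k)).card := by
    simp only [Finset.card_filter]
    exact Finset.sum_comm
  have h3 : ∀ x ∈ C, (Finset.univ.filter (fun k : Fin 4 => x ∈ XX D k)).card ≤ 2 := by
    intro x _
    obtain ⟨y, z⟩ := x
    induction y using Sym2.ind with
    | _ e f =>
      refine le_trans (Finset.card_le_card ?_) (card_QQ (huE e) (huE f))
      intro k hk
      rw [Finset.mem_filter] at hk ⊢
      exact ⟨hk.1, XX_QQ D hk.2 rfl⟩
  have h4 := Finset.sum_le_sum h3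
  rw [← h2] at h4
  have h5 : ∑ _k : Fin 4, r ^ 2 ≤ ∑ k : Fin 4, (C.filter (fun x => x ∈ XX D k)).card :=
    Finset.sum_le_sum (fun k _ => h1 k)
  simp only [Finset.sum_const, Finset.card_univ, Fintype.card_fin, smul_eq_mul] at h4 h5
  omega

end Pool.Agent.H118.CE
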