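import Pool.Agent.H118.CE.Low

set_option autoImplicit false

/-!
# Upper bound: the graph without the edge `uv`
-/

namespace Pool.Agent.H118.CE

open Pool.Agent.Helper770.Crossing Pool.Agent.Helper770.Exist
open Pool.Agent.Helper770.Straight (ori crossingNumber_le)

/-- heights of the hubs -/
def yy : Fin 4 → ℝ := ![2, 1, -1, -2]

/-- abscissae of the other vertices -/
noncomputable def xx (r : ℕ) : Fin (2 * r) ⊕ Bool → ℝ
  | Sum.inl i => if i.1 < r then (i.1 : ℝ) + 1 else -((i.1 : ℝ) - r + 1)
  | Sum.inr false => 1 / 2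
  | Sum.inr true => (r : ℝ) + 1

/-- the positions -/
noncomputable def PP (r : ℕ) : VV (2 * r) → ℂ
  | Sum.inl a => ⟨0, yy a⟩
  | Sum.inr c => ⟨xx r c, 0⟩

lemma yy_ne (a : Fin 4) : yy a ≠ 0 := by fin_cases a <;> simp [yy]

lemma yy_inj : Function.Injective yy := by
  intro a b
  fin_cases a <;> fin_cases b <;> simp [yy] <;> norm_num

lemma xx_ne (r : ℕ) (c : Fin (2 * r) ⊕ Bool) : xx r c ≠ 0 := by
  rcases c with i | b
  · simp only [xx]
    split_ifs with h
    · positivity
    · push Not at h
      have : (r : ℝ) ≤ i.1 := by exact_mod_cast h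
      intro h'
      linarith
  · cases b
    · simp [xx]
    · simp only [xx]; positivity

lemma xx_inj (r : ℕ) : Function.Injective (xx r) := by
  have hs : ∀ i : Fin (2 * r), i.1 < r → 1 ≤ (i.1 : ℝ) + 1 ∧ (i.1 : ℝ) + 1 ≤ r := by
    intro i h
    have h0 : (0 : ℝ) ≤ i.1 := Nat.cast_nonneg _
    have : ((i.1 + 1 : ℕ) : ℝ) ≤ r := by exact_mod_cast h
    push_cast at this
    constructor <;> linarith
  have hn : ∀ i : Fin (2 * r), ¬ i.1 < r → -((i.1 : ℝ) - r + 1) ≤ -1 := by
    intro i h
    push Not at h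
    have : (r : ℝ) ≤ i.1 := by exact_mod_cast h
    linarith
  have hr : (0 : ℝ) ≤ r := Nat.cast_nonneg _
  intro c d h
  rcases c with i | b <;> rcases d with j | b'
  · simp only [xx] at h
    split_ifs at h with h1 h2 h2
    · have : (i.1 : ℝ) = j.1 := by linarith
      rw [show i = j from Fin.ext (by exact_mod_cast this)]
    · have a1 := hs i h1; have a2 := hn j h2; linarith
    · have a1 := hn i h1; have a2 := hs j h2; linarith
    · have : (i.1 : ℝ) = j.1 := by linarith
      rw [show i = j from Fin.ext (by exact_mod_cast this)]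
  · exfalso
    cases b' <;> simp only [xx] at h <;> split_ifs at h with h1
    · have := hs i h1; linarith
    · have := hn i h1; linarith
    · have := hs i h1; linarith
    · have := hn i h1; linarith
  · exfalso
    cases b <;> simp only [xx] at h <;> split_ifs at h with h1
    · have := hs j h1; linarith
    · have := hn j h1; linarith
    · have := hs j h1; linarith
    · have := hn j h1; linarith
  · cases b <;> cases b' <;> simp only [xx] at h
    · rfl
    · exfalso; linarith
    · exfalso; linarith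
    · rfl

lemma ori_hh (r : ℕ) (a b : Fin 4) (c : Fin (2 * r) ⊕ Bool) :
    ori (PP r (Sum.inl a)) (PP r (Sum.inr c)) (PP r (Sum.inl b)) = xx r c * (yy b - yy a) := by
  simp [ori, PP]

lemma ori_hp (r : ℕ) (a : Fin 4) (c d : Fin (2 * r) ⊕ Bool) :
    ori (PP r (Sum.inl a)) (PP r (Sum.inr c)) (PP r (Sum.inr d)) = yy a * (xx r d - xx r c) := by
  simp [ori, PP]; ring

lemma ori_swap (a b c : ℂ) : ori b a c = - ori a b c := by simp only [ori]; ring

lemma PP_inj (r : ℕ) : Function.Injective (PP r) := by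
  intro x y h
  rcases x with a | c <;> rcases y with b | d
  · have := congrArg Complex.im h
    exact congrArg _ (yy_inj this)
  · have := congrArg Complex.im h
    exact absurd this (yy_ne a)
  · have := congrArg Complex.im h
    exact absurd this.symm (yy_ne b)
  · have := congrArg Complex.re h
    exact congrArg _ (xx_inj r this)

/-- the adjacency in terms of the other end of a hub -/
def nb (n : ℕ) (a : Fin 4) : Fin n ⊕ Bool → Prop
  | Sum.inl _ => True
  | Sum.inr b => side a = b

lemma adj_cases {n : ℕ} {x y : VV n} (h : (GG n).Adj x y) :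
    (∃ a c, x = Sum.inl a ∧ y = Sum.inr c ∧ nb n a c) ∨
    (∃ a c, y = Sum.inl a ∧ x = Sum.inr c ∧ nb n a c) := by
  rcases x with a | i | b <;> rcases y with a' | i' | b' <;> rcases h with h | h <;>
    simp only [RR] at h
  · exact Or.inl ⟨a, _, rfl, rfl, trivial⟩
  · exact Or.inl ⟨a, _, rfl, rfl, h⟩
  · exact Or.inr ⟨a', _, rfl, rfl, trivial⟩
  · exact Or.inr ⟨a', _, rfl, rfl, h⟩

lemma egen (r : ℕ) : EGen (GG (2 * r)) (PP r) where
  inj := PP_inj r
  gen := by
    have key : ∀ (a : Fin 4) (c : Fin (2 * r) ⊕ Bool) (z : VV (2 * r)), z ≠ Sum.inl a →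
        z ≠ Sum.inr c → ori (PP r (Sum.inl a)) (PP r (Sum.inr c)) (PP r z) ≠ 0 := by
      intro a c z h1 h2
      rcases z with b | d
      · rw [ori_hh]
        refine mul_ne_zero (xx_ne r c) (sub_ne_zero.mpr fun h => h1 ?_)
        rw [yy_inj h]
      · rw [ori_hp]
        refine mul_ne_zero (yy_ne a) (sub_ne_zero.mpr fun h => h2 ?_)
        rw [xx_inj r h]
    intro x y z h hx hy
    rcases adj_cases h with ⟨a, c, rfl, rfl, -⟩ | ⟨a, c, rfl, rfl, -⟩
    · exact key a c z hx hy
    · rw [ori_swap, neg_ne_zero]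
      exact key a c z hy hx

/-- index set of the crossings -/
def II (r : ℕ) : Finset ((Fin (2 * r) × Fin (2 * r)) × Bool) :=
  (Finset.univ.filter (fun p : Fin (2 * r) × Fin (2 * r) => p.1 < p.2 ∧ (p.1.1 < r ↔ p.2.1 < r))) ×ˢ
    Finset.univ

lemma card_II (r : ℕ) : (II r).card ≤ (r * r - r) * 2 := by
  rw [II, Finset.card_product, Finset.card_univ, Fintype.card_bool]
  refine Nat.mul_le_mul_right 2 ?_
  have h : ((Finset.univ : Finset (Fin r)).offDiag).card = r * r - r := by
    rw [Finset.offDiag_card, Finset.card_univ, Fintype.card_fin]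
  rw [← h]
  have hlt : ∀ p : Fin (2 * r) × Fin (2 * r), 0 < r := fun p => by
    have := p.1.2; omega
  let φ : Fin (2 * r) × Fin (2 * r) → Fin r × Fin r := fun p =>
    if h : p.1.1 < r ∧ p.2.1 < r then (⟨p.1.1, h.1⟩, ⟨p.2.1, h.2⟩) else
      (⟨p.2.1 - r, by have := p.2.2; have := hlt p; omega⟩,
        ⟨p.1.1 - r, by have := p.1.2; have := hlt p; omega⟩)
  refine Finset.card_le_card_of_injOn φ ?_ ?_
  · intro p hp
    simp only [Finset.coe_filter, Finset.mem_univ, true_and, Set.mem_ofPred_eq] at hp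
    obtain ⟨h1, h2⟩ := hp
    have h1' : p.1.1 < p.2.1 := h1
    simp only [Finset.coe_offDiag, Set.mem_offDiag, Finset.coe_univ, Set.mem_univ, true_and]
    by_cases h : p.1.1 < r ∧ p.2.1 < r
    · simp only [φ, dif_pos h, ne_eq, Fin.mk.injEq]
      omega
    · simp only [φ, dif_neg h, ne_eq, Fin.mk.injEq]
      omega
  · intro p hp q hq hpq
    simp only [Finset.coe_filter, Finset.mem_univ, true_and, Set.mem_ofPred_eq] at hp hq
    obtain ⟨h1, h2⟩ := hp
    obtain ⟨h3, h4⟩ := hq
    have h1' : p.1.1 < p.2.1 := h1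
    have h3' : q.1.1 < q.2.1 := h3
    by_cases h : p.1.1 < r ∧ p.2.1 < r <;> by_cases h' : q.1.1 < r ∧ q.2.1 < r
    · simp only [φ, dif_pos h, dif_pos h', Prod.mk.injEq, Fin.mk.injEq] at hpq
      exact Prod.ext (Fin.ext hpq.1) (Fin.ext hpq.2)
    · simp only [φ, dif_pos h, dif_neg h', Prod.mk.injEq, Fin.mk.injEq] at hpq
      omega
    · simp only [φ, dif_neg h, dif_pos h', Prod.mk.injEq, Fin.mk.injEq] at hpq
      omega
    · simp only [φ, dif_neg h, dif_neg h', Prod.mk.injEq, Fin.mk.injEq] at hpq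
      exact Prod.ext (Fin.ext (by omega)) (Fin.ext (by omega))

/-- the pair of crossing edges with a given index -/
def cp (r : ℕ) (x : (Fin (2 * r) × Fin (2 * r)) × Bool) : Sym2 (Sym2 (VV (2 * r))) :=
  s(s(Sum.inl (if x.2 then 0 else 3), Sum.inr (Sum.inl x.1.1)),
    s(Sum.inl (if x.2 then 1 else 2), Sum.inr (Sum.inl x.1.2)))


lemma stars (r : ℕ) {c d : Fin (2 * r) ⊕ Bool} (hc : c ≠ Sum.inr false) (hd : d ≠ Sum.inr true)
    (h : (0 < xx r c ∧ xx r c < xx r d) ∨ (xx r d < xx r c ∧ xx r c < 0)) :
    ∃ i j : Fin (2 * r), c = Sum.inl i ∧ d = Sum.inl j ∧ i < j ∧ (i.1 < r ↔ j.1 < r) := by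
  have hs : ∀ i : Fin (2 * r), i.1 < r → 1 ≤ (i.1 : ℝ) + 1 ∧ (i.1 : ℝ) + 1 ≤ r := by
    intro i h
    have h0 : (0 : ℝ) ≤ i.1 := Nat.cast_nonneg _
    have : ((i.1 + 1 : ℕ) : ℝ) ≤ r := by exact_mod_cast h
    push_cast at this
    constructor <;> linarith
  have hn : ∀ i : Fin (2 * r), ¬ i.1 < r → -((i.1 : ℝ) - r + 1) ≤ -1 := by
    intro i h
    push Not at h
    have : (r : ℝ) ≤ i.1 := by exact_mod_cast h
    linarith
  have hr : (0 : ℝ) ≤ r := Nat.cast_nonneg _
  rcases c with i | b
  · rcases d with j | b'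
    · refine ⟨i, j, rfl, rfl, ?_⟩
      simp only [xx] at h
      split_ifs at h with h1 h2 h2
      · have a1 := hs i h1
        rcases h with h | h
        · refine ⟨?_, iff_of_true h1 h2⟩
          have : (i.1 : ℝ) < j.1 := by linarith
          exact Fin.lt_def.mpr (by exact_mod_cast this)
        · linarith
      · have a1 := hs i h1; have a2 := hn j h2
        rcases h with h | h <;> linarith
      · have a1 := hn i h1; have a2 := hs j h2
        rcases h with h | h <;> linarith
      · have a1 := hn i h1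
        rcases h with h | h
        · linarith
        · refine ⟨?_, iff_of_false h1 h2⟩
          have : (i.1 : ℝ) < j.1 := by linarith
          exact Fin.lt_def.mpr (by exact_mod_cast this)
    · exfalso
      cases b'
      · simp only [xx] at h
        split_ifs at h with h1
        · have := hs i h1
          rcases h with h | h <;> linarith
        · have := hn i h1
          rcases h with h | h <;> linarith
      · exact hd rfl
  · exfalso
    cases b
    · exact hc rfl
    · rcases d with j | b'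
      · simp only [xx] at h
        split_ifs at h with h1
        · have := hs j h1
          rcases h with h | h <;> linarith
        · have := hn j h1
          rcases h with h | h <;> linarith
      · cases b'
        · simp only [xx] at h
          rcases h with h | h <;> linarith
        · exact hd rfl

lemma quad {p q : ℝ} (h1 : 0 < p * (q - p)) (h2 : 0 < q * (q - p)) :
    (0 < p ∧ p < q) ∨ (q < p ∧ p < 0) := by
  rcases lt_trichotomy (q - p) 0 with h | h | h
  · right
    constructor
    · linarith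
    · by_contra hp
      push Not at hp
      nlinarith
  · rw [h] at h1; simp at h1
  · left
    constructor
    · by_contra hp
      push Not at hp
      nlinarith
    · linarith

lemma quad' {p q : ℝ} (h1 : 0 < p * (q - p)) (h2 : q * (q - p) < 0) : False := by
  rcases lt_trichotomy (q - p) 0 with h | h | h
  · have : p < 0 := by
      by_contra hp
      push Not at hp
      nlinarith
    nlinarith
  · rw [h] at h1; simp at h1
  · have : 0 < p := by
      by_contra hp
      push Not at hp
      nlinarith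
    nlinarith

/-- the essential computation: outer hub first -/
lemma core (r : ℕ) {a b : Fin 4} {c d : Fin (2 * r) ⊕ Bool} (hc : nb _ a c) (hd : nb _ b d)
    (h1 : xx r c * yy a * ((yy b - yy a) * (xx r d - xx r c)) < 0)
    (h2 : xx r d * yy b * ((yy b - yy a) * (xx r d - xx r c)) < 0) :
    ∃ x ∈ II r, cp r x = s(s(Sum.inl a, Sum.inr c), s(Sum.inl b, Sum.inr d)) := by
  -- outer hub `a`, inner hub `b`
  have key : ∀ (t : Bool) (c d : Fin (2 * r) ⊕ Bool), nb _ (if t then (0 : Fin 4) else 3) c →
      nb _ (if t then (1 : Fin 4) else 2) d → 0 < xx r c * (xx r d - xx r c) →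
      0 < xx r d * (xx r d - xx r c) → ∃ x ∈ II r, cp r x =
        s(s(Sum.inl (if t then 0 else 3), Sum.inr c), s(Sum.inl (if t then 1 else 2), Sum.inr d)) := by
    intro t c d hc hd q1 q2
    have hc' : c ≠ Sum.inr false := by
      rintro rfl
      cases t <;> simp [nb, side] at hc
    have hd' : d ≠ Sum.inr true := by
      rintro rfl
      cases t <;> simp [nb, side] at hd
    obtain ⟨i, j, rfl, rfl, hij, hr⟩ := stars r hc' hd' (quad q1 q2)
    refine ⟨((i, j), t), ?_, rfl⟩
    rw [II, Finset.mem_product, Finset.mem_filter]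
    exact ⟨⟨Finset.mem_univ _, hij, hr⟩, Finset.mem_univ _⟩
  have y0 : yy 0 = 2 := rfl
  have y1 : yy 1 = 1 := rfl
  have y2 : yy 2 = -1 := rfl
  have y3 : yy 3 = -2 := rfl
  set p := xx r c with hp
  set q := xx r d with hq
  fin_cases a <;> fin_cases b <;> simp only [Fin.zero_eta, Fin.mk_one, Fin.reduceFinMk, y0, y1, y2, y3] at h1 h2 hc hd ⊢
  · simp at h1
  · exact key true c d hc hd (by nlinarith) (by nlinarith)
  · exact (quad' (p := p) (q := q) (by nlinarith) (by nlinarith)).elim
  · exact (quad' (p := p) (q := q) (by nlinarith) (by nlinarith)).elim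
  · obtain ⟨x, hx, hx'⟩ := key true d c hd hc (by nlinarith) (by nlinarith)
    exact ⟨x, hx, by rw [hx', Sym2.eq_swap]; rfl⟩
  · simp at h1
  · exact (quad' (p := p) (q := q) (by nlinarith) (by nlinarith)).elim
  · exact (quad' (p := p) (q := q) (by nlinarith) (by nlinarith)).elim
  · exact (quad' (p := p) (q := q) (by nlinarith) (by nlinarith)).elim
  · exact (quad' (p := p) (q := q) (by nlinarith) (by nlinarith)).elim
  · simp at h1
  · obtain ⟨x, hx, hx'⟩ := key false d c hd hc (by nlinarith) (by nlinarith)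
    exact ⟨x, hx, by rw [hx', Sym2.eq_swap]; rfl⟩
  · exact (quad' (p := p) (q := q) (by nlinarith) (by nlinarith)).elim
  · exact (quad' (p := p) (q := q) (by nlinarith) (by nlinarith)).elim
  · exact key false c d hc hd (by nlinarith) (by nlinarith)
  · simp at h1

/-- **Upper bound.** -/
theorem upper (r : ℕ) : crossingNumber (GG (2 * r)) ≤ 2 * (r * r - r) := by
  classical
  obtain ⟨hfin, hle⟩ := ncard_le (egen r) ((II r).image (cp r)) (by
    intro x y z w h1 h2 _ _ _ _ _ _ o1 o2
    rw [Finset.mem_image]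
    rcases adj_cases h1 with ⟨a, c, rfl, rfl, hc⟩ | ⟨a, c, rfl, rfl, hc⟩ <;>
      rcases adj_cases h2 with ⟨b, d, rfl, rfl, hd⟩ | ⟨b, d, rfl, rfl, hd⟩
    · rw [ori_hh, ori_hp] at o1 o2
      exact core r hc hd (by nlinarith) (by nlinarith)
    · rw [ori_hh, ori_hp] at o1
      rw [ori_swap (PP r (Sum.inl b)) (PP r (Sum.inr d)), ori_swap (PP r (Sum.inl b)) (PP r (Sum.inr d)),
        ori_hh, ori_hp] at o2
      obtain ⟨x, hx, hx'⟩ := core r hc hd (by nlinarith) (by nlinarith)
      exact ⟨x, hx, by rw [hx', Sym2.eq_swap (a := Sum.inr d)]⟩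
    · rw [ori_swap (PP r (Sum.inl a)) (PP r (Sum.inr c)), ori_swap (PP r (Sum.inl a)) (PP r (Sum.inr c)),
        ori_hh, ori_hp] at o1
      rw [ori_hh, ori_hp] at o2
      obtain ⟨x, hx, hx'⟩ := core r hc hd (by nlinarith) (by nlinarith)
      exact ⟨x, hx, by rw [hx', Sym2.eq_swap (a := Sum.inr c)]⟩
    · rw [ori_swap (PP r (Sum.inl a)) (PP r (Sum.inr c)), ori_swap (PP r (Sum.inl a)) (PP r (Sum.inr c)),
        ori_hh, ori_hp] at o1
      rw [ori_swap (PP r (Sum.inl b)) (PP r (Sum.inr d)), ori_swap (PP r (Sum.inl b)) (PP r (Sum.inr d)),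
        ori_hh, ori_hp] at o2
      obtain ⟨x, hx, hx'⟩ := core r hc hd (by nlinarith) (by nlinarith)
      exact ⟨x, hx, by rw [hx', Sym2.eq_swap (a := Sum.inr c), Sym2.eq_swap (a := Sum.inr d)]⟩)
  have h1 := crossingNumber_le _ hfin
  have h2 := Finset.card_image_le (s := II r) (f := cp r)
  have h3 := card_II r
  omega

/-- The number of edges. -/
theorem edges (n : ℕ) : (GG n).edgeSet.ncard ≤ 4 * (n + 1) := by
  classical
  let φ : Fin 4 × Option (Fin n) → Sym2 (VV n) := fun p =>
    match p.2 with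
    | some i => s(Sum.inl p.1, Sum.inr (Sum.inl i))
    | none => s(Sum.inl p.1, Sum.inr (Sum.inr (side p.1)))
  have hs : (GG n).edgeSet ⊆ φ '' Set.univ := by
    intro e he
    induction e using Sym2.ind with
    | _ x y =>
      have key : ∀ a c, nb n a c → s(Sum.inl a, Sum.inr c) ∈ φ '' Set.univ := by
        intro a c hac
        rcases c with i | b
        · exact ⟨(a, some i), Set.mem_univ _, rfl⟩
        · have : side a = b := hac
          subst this
          exact ⟨(a, none), Set.mem_univ _, rfl⟩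
      rcases adj_cases he with ⟨a, c, rfl, rfl, h⟩ | ⟨a, c, rfl, rfl, h⟩
      · exact key a c h
      · rw [Sym2.eq_swap]; exact key a c h
  refine (Set.ncard_le_ncard hs (Set.toFinite _)).trans ((Set.ncard_image_le (Set.toFinite _)).trans ?_)
  rw [Set.ncard_univ, Nat.card_eq_fintype_card, Fintype.card_prod, Fintype.card_option,
    Fintype.card_fin, Fintype.card_fin]

/-- **Main theorem.** -/
theorem main (c : ℝ) (h : ∀ (V : Type) [Fintype V] (G : SimpleGraph V) (u v : V), u ≠ v →
    ¬ G.Adj u v → (crossingNumber (G ⊔ SimpleGraph.edge u v) : ℝ) ≤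
      crossingNumber G + c * G.edgeSet.ncard) : 1 / 4 ≤ c := by
  have hna : ∀ n, ¬ (GG n).Adj (uu n) (vv n) := by
    rintro n (h | h) <;> exact h
  have key : ∀ r : ℕ, 2 * (r : ℝ) ≤ c * (GG (2 * r)).edgeSet.ncard := by
    intro r
    have h1 := h (VV (2 * r)) (GG (2 * r)) (uu _) (vv _) (by simp) (hna _)
    have h2 := lower r
    have h3 := upper r
    have h4 : crossingNumber (GG (2 * r)) + 2 * r ≤ crossingNumber (GG' (2 * r)) := by
      have : r ≤ r * r := Nat.le_mul_self r
      rw [pow_two] at h2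
      omega
    have h5 : (crossingNumber (GG (2 * r)) : ℝ) + 2 * r ≤ crossingNumber (GG' (2 * r)) := by
      exact_mod_cast h4
    linarith
  by_contra hc
  push Not at hc
  have hc0 : 0 ≤ c := by
    by_contra hneg
    push Not at hneg
    have h1 := key 1
    have h2 : (0 : ℝ) ≤ (GG (2 * 1)).edgeSet.ncard := Nat.cast_nonneg _
    have h3 : c * (GG (2 * 1)).edgeSet.ncard ≤ 0 := mul_nonpos_of_nonpos_of_nonneg hneg.le h2
    norm_num at h1
    norm_num at h3
    linarith
  have key2 : ∀ r : ℕ, 2 * (r : ℝ) ≤ c * (4 * (2 * r + 1)) := by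
    intro r
    refine (key r).trans (mul_le_mul_of_nonneg_left ?_ hc0)
    have := edges (2 * r)
    have h' : ((GG (2 * r)).edgeSet.ncard : ℝ) ≤ ((4 * (2 * r + 1) : ℕ) : ℝ) := by exact_mod_cast this
    push_cast at h'
    exact h'
  have hpos : 0 < 2 - 8 * c := by linarith
  obtain ⟨r, hr⟩ := exists_nat_gt (4 * c / (2 - 8 * c))
  rw [div_lt_iff₀ hpos] at hr
  have := key2 r
  linarith

end Pool.Agent.H118.CE
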